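import Pool.Agent.Helper20.QD.St6

open Filter Topology Matrix Set Metric
open scoped ComplexConjugate

namespace Pool.Agent.Helper10.QD

open Pool.Agent.Helper35.PM Pool.Agent.Helper20.QD

/-- `TT` inside the disc and its boundary value outside. -/
noncomputable def dexT (w η : ℂ) : ℂ := if ‖w‖ < 1 then TT w η else -w

theorem dex_den {w η : ℂ} (hη : ‖η‖ = 1) (hne : ‖w‖ = 1 → η ≠ w) : 1 - conj w * η ≠ 0 := by
  intro h
  have h1 : conj w * η = 1 := (sub_eq_zero.1 h).symm
  have h2 : ‖conj w * η‖ = 1 := by rw [h1, norm_one]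
  rw [norm_mul, RCLike.norm_conj, hη, mul_one] at h2
  apply hne h2
  have h3 : w * conj w = 1 := by
    rw [Complex.mul_conj, Complex.normSq_eq_norm_sq, h2]
    norm_num
  calc η = (w * conj w) * η := by rw [h3, one_mul]
    _ = w * (conj w * η) := by ring
    _ = w := by rw [h1, mul_one]

theorem dex_norm {w η : ℂ} (hη : ‖η‖ = 1) (hw : ‖w‖ < 1) : ‖TT w η‖ = 1 := by
  have h0 : 1 - conj w * η ≠ 0 := dex_den hη (fun h => absurd h hw.ne)
  have h3 : η * conj η = 1 := by
    rw [Complex.mul_conj, Complex.normSq_eq_norm_sq, hη]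
    norm_num
  have h1 : η - w = η * conj (1 - conj w * η) := by
    rw [map_sub, map_mul, map_one, Complex.conj_conj]
    linear_combination w * h3
  unfold TT
  rw [norm_div, h1, norm_mul, RCLike.norm_conj, hη, one_mul, div_self (norm_ne_zero_iff.2 h0)]

theorem dex_normT {w η : ℂ} (hη : ‖η‖ = 1) (hw : ‖w‖ ≤ 1) : ‖dexT w η‖ ≤ 1 := by
  unfold dexT
  split_ifs with h
  · exact (dex_norm hη h).le
  · rw [norm_neg]
    exact hw

theorem dex_eq {w η : ℂ} (hη : ‖η‖ = 1) (hw : ‖w‖ ≤ 1) (hne : η ≠ w) : dexT w η = TT w η := by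
  unfold dexT
  split_ifs with h
  · rfl
  · have h1 : ‖w‖ = 1 := le_antisymm hw (not_lt.1 h)
    have h3 : w * conj w = 1 := by
      rw [Complex.mul_conj, Complex.normSq_eq_norm_sq, h1]
      norm_num
    unfold TT
    rw [eq_div_iff (dex_den hη (fun _ => hne))]
    linear_combination η * h3

theorem dex_cont {w0 η : ℂ} (hη : ‖η‖ = 1) (hw : w0 ∈ DD) (hne : η ≠ w0) :
    ContinuousWithinAt (fun w => dexT w η) DD w0 := by
  have h1 : ContinuousWithinAt (fun w => TT w η) DD w0 := by
    unfold TT
    apply ContinuousWithinAt.div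
    · exact continuousWithinAt_const.sub continuousWithinAt_id
    · exact continuousWithinAt_const.sub
        ((Complex.continuous_conj.continuousWithinAt).mul continuousWithinAt_const)
    · exact dex_den hη (fun _ => hne)
  refine h1.congr_of_eventuallyEq ?_ (dex_eq hη (mem_closedBall_zero_iff.1 hw) hne)
  have h2 : ∀ᶠ w in 𝓝[DD] w0, w ≠ η :=
    nhdsWithin_le_nhds (isOpen_ne.mem_nhds (Ne.symm hne))
  filter_upwards [h2, self_mem_nhdsWithin] with w hw1 hw2
  exact dex_eq hη (mem_closedBall_zero_iff.1 hw2) (Ne.symm hw1)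

theorem hDEX (hTCV : StTCV) (hTCI : StTCI) (hPIN : StPIN) : StDEX := by
  intro φ hφ z hz
  by_contra hcon
  push Not at hcon
  have hzn : ‖z‖ < 1 := mem_ball_zero_iff.1 hz
  have he : ∀ t : ℝ, Complex.exp (t * Complex.I) ∈ SS := by
    intro t
    rw [mem_sphere_zero_iff_norm, Complex.norm_exp_ofReal_mul_I]
  have hec : Continuous fun t : ℝ => Complex.exp (t * Complex.I) := by fun_prop
  have hφS : ∀ ζ ∈ SS, ‖φ ζ‖ = 1 := fun ζ hζ => mem_sphere_zero_iff_norm.1 (hφ.2.2.1 hζ)
  have hφc : Continuous fun t : ℝ => φ (Complex.exp (t * Complex.I)) :=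
    hφ.1.comp_continuous hec he
  have hPKc : Continuous fun t : ℝ => PK z (Complex.exp (t * Complex.I)) := by
    unfold PK
    apply Continuous.div continuous_const (by fun_prop)
    intro t h
    have h1 : ‖Complex.exp (t * Complex.I) - z‖ = 0 := by
      exact pow_eq_zero_iff (two_ne_zero) |>.1 h
    rw [norm_eq_zero, sub_eq_zero] at h1
    have h2 := mem_sphere_zero_iff_norm.1 (he t)
    rw [h1] at h2
    linarith
  let K : ℂ → ℝ → ℂ := fun w t => (PK z (Complex.exp (t * Complex.I)) : ℂ) *
    dexT w (φ (Complex.exp (t * Complex.I)))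
  let G : ℂ → ℂ := fun w => ((2 * Real.pi : ℝ) : ℂ)⁻¹ * ∫ t in (0 : ℝ)..(2 * Real.pi), K w t
  have hG1 : ∀ w ∈ D, G w = FF φ z w := by
    intro w hw
    have hw' : ‖w‖ < 1 := mem_ball_zero_iff.1 hw
    change ((2 * Real.pi : ℝ) : ℂ)⁻¹ * ∫ t in (0 : ℝ)..(2 * Real.pi),
      (PK z (Complex.exp (t * Complex.I)) : ℂ) * dexT w (φ (Complex.exp (t * Complex.I))) = _
    unfold FF PI dexT
    simp only [if_pos hw']
  have hG2 : ∀ w, ‖w‖ = 1 → G w = -w := by
    intro w hw
    have hw' : ¬ ‖w‖ < 1 := not_lt.2 hw.ge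
    change ((2 * Real.pi : ℝ) : ℂ)⁻¹ * ∫ t in (0 : ℝ)..(2 * Real.pi),
      (PK z (Complex.exp (t * Complex.I)) : ℂ) * dexT w (φ (Complex.exp (t * Complex.I))) = _
    unfold dexT
    simp only [if_neg hw']
    have h1 := hPIN.2.1 z hz
    unfold PI at h1
    simp only [mul_one] at h1
    rw [intervalIntegral.integral_mul_const, ← mul_assoc, h1, one_mul]
  have hGc : ContinuousOn G DD := by
    intro w0 hw0
    apply ContinuousWithinAt.mul continuousWithinAt_const
    apply intervalIntegral.continuousWithinAt_of_dominated_interval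
      (bound := fun t => PK z (Complex.exp (t * Complex.I)))
    · filter_upwards [self_mem_nhdsWithin] with w hw
      apply Continuous.aestronglyMeasurable
      apply Continuous.mul
      · exact Complex.continuous_ofReal.comp hPKc
      · unfold dexT
        split_ifs with h
        · unfold TT
          apply Continuous.div (hφc.sub continuous_const)
            (continuous_const.sub (continuous_const.mul hφc))
          intro t
          exact dex_den (hφS _ (he t)) (fun h2 => absurd h2 h.ne)
        · exact continuous_const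
    · filter_upwards [self_mem_nhdsWithin] with w hw
      refine Eventually.of_forall fun t _ => ?_
      change ‖(PK z (Complex.exp (t * Complex.I)) : ℂ) *
        dexT w (φ (Complex.exp (t * Complex.I)))‖ ≤ _
      have h1 := hPIN.2.2 z hz _ (he t)
      rw [norm_mul, Complex.norm_real, Real.norm_eq_abs, abs_of_pos h1]
      exact mul_le_of_le_one_right h1.le
        (dex_normT (hφS _ (he t)) (mem_closedBall_zero_iff.1 hw))
    · exact hPKc.intervalIntegrable _ _
    · have hnull : MeasureTheory.volume {t : ℝ | t ∈ Set.uIoc (0 : ℝ) (2 * Real.pi) ∧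
          φ (Complex.exp (t * Complex.I)) = w0} = 0 := by
        apply Set.Subsingleton.measure_zero
        rintro t ⟨ht, ht2⟩ s ⟨hs, hs2⟩
        have h1 := hφ.2.1 (he t) (he s) (ht2.trans hs2.symm)
        obtain ⟨n, hn⟩ := Complex.exp_eq_exp_iff_exists_int.1 h1
        have h2 : t = s + n * (2 * Real.pi) := by
          have h3 := congrArg Complex.im hn
          simp at h3
          linarith
        rw [uIoc_of_le (by positivity)] at ht hs
        have hpi := Real.pi_pos
        have h4 : (n : ℝ) < 1 := by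
          by_contra hc
          push Not at hc
          nlinarith [ht.2, hs.1]
        have h5 : (-1 : ℝ) < n := by
          by_contra hc
          push Not at hc
          nlinarith [ht.1, hs.2]
        have h6 : n = 0 := by
          have h7 : n < 1 := by exact_mod_cast h4
          have h8 : -1 < n := by exact_mod_cast h5
          omega
        rw [h2, h6]
        simp
      filter_upwards [MeasureTheory.measure_eq_zero_iff_ae_notMem.1 hnull] with t ht htI
      apply ContinuousWithinAt.mul continuousWithinAt_const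
      exact dex_cont (hφS _ (he t)) hw0 (fun h => ht ⟨htI, h⟩)
  obtain ⟨g, hg, hge⟩ := hTCV DD G (convex_closedBall 0 1) hGc (by
    intro w hw
    rcases lt_or_eq_of_le (mem_closedBall_zero_iff.1 hw) with h | h
    · rw [hG1 w (mem_ball_zero_iff.2 h)]
      exact hcon w (mem_ball_zero_iff.2 h)
    · rw [hG2 w h]
      intro h2
      rw [neg_eq_zero] at h2
      rw [h2, norm_zero] at h
      exact zero_ne_one h)
  have hlog : LogOn (sphere (0 : ℂ) 1) (fun w => (w - 0) ^ (1 : ℤ)) := by
    refine ⟨fun w => g w + Real.pi * Complex.I,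
      (hg.mono sphere_subset_closedBall).add continuousOn_const, ?_⟩
    intro w hw
    have h1 := hge w (sphere_subset_closedBall hw)
    rw [hG2 w (mem_sphere_zero_iff_norm.1 hw)] at h1
    rw [Complex.exp_add, ← h1, Complex.exp_pi_mul_I]
    simp
  exact absurd (hTCI.1 0 1 1 one_pos hlog) one_ne_zero

end Pool.Agent.Helper10.QD
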