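import Pool.Agent.Helper20.QD.St6

open Filter Topology Matrix Set Metric
open scoped ComplexConjugate

namespace Pool.Agent.Helper10.QD

open Pool.Agent.Helper35.PM Pool.Agent.Helper20.QD

theorem dna_alg (a b ac bc w wc η : ℂ) (hdet : a * ac - b * bc = 1) (h1 : bc * w + ac ≠ 0)
    (h1c : b * wc + a ≠ 0) (h2 : bc * η + ac ≠ 0) (h3 : 1 - wc * η ≠ 0) :
    ((a * η + b) / (bc * η + ac) - (a * w + b) / (bc * w + ac)) /
      (1 - ((ac * wc + bc) / (b * wc + a)) * ((a * η + b) / (bc * η + ac))) =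
    ((b * wc + a) / (bc * w + ac)) * ((η - w) / (1 - wc * η)) := by
  have e1 : (a * η + b) / (bc * η + ac) - (a * w + b) / (bc * w + ac) =
      (η - w) / ((bc * η + ac) * (bc * w + ac)) := by
    rw [div_sub_div _ _ h2 h1]
    congr 1
    linear_combination (η - w) * hdet
  have e2 : 1 - ((ac * wc + bc) / (b * wc + a)) * ((a * η + b) / (bc * η + ac)) =
      (1 - wc * η) / ((b * wc + a) * (bc * η + ac)) := by
    rw [div_mul_div_comm, eq_div_iff (mul_ne_zero h1c h2), sub_mul,
      div_mul_cancel₀ _ (mul_ne_zero h1c h2)]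
    linear_combination (1 - wc * η) * hdet
  rw [e1, e2, div_div_div_eq, div_mul_div_comm,
    div_eq_div_iff (mul_ne_zero (mul_ne_zero h2 h1) h3) (mul_ne_zero h1 h3)]
  ring

theorem dna_den {w η : ℂ} (hw : ‖w‖ < 1) (hη : ‖η‖ = 1) : 1 - conj w * η ≠ 0 := by
  intro h
  have h1 : conj w * η = 1 := (sub_eq_zero.1 h).symm
  have h2 : ‖conj w * η‖ = 1 := by rw [h1, norm_one]
  rw [norm_mul, RCLike.norm_conj, hη, mul_one] at h2
  linarith

theorem hDNA (hPIN : StPIN) (hSUB : StSUB) : StDNA := by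
  intro φ A B hφ hA hB hAB z hz w hw hF
  obtain ⟨hA1, hA2, hA3, hA4, -⟩ := hSUB.1 A hA
  have hwn : ‖w‖ < 1 := mem_ball_zero_iff.1 hw
  have hwD : w ∈ DD := mem_closedBall_zero_iff.2 hwn.le
  have hmw : mob A w ∈ D := hA3.mapsTo hw
  have hmwn : ‖mob A w‖ < 1 := mem_ball_zero_iff.1 hmw
  have hφS : ∀ ζ ∈ SS, ‖φ ζ‖ = 1 := fun ζ hζ => mem_sphere_zero_iff_norm.1 (hφ.2.2.1 hζ)
  -- continuity
  have hc : ContinuousOn (fun ζ => TT (mob A w) (φ ζ)) SS := by
    unfold TT
    refine ContinuousOn.div (hφ.1.sub continuousOn_const)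
      (continuousOn_const.sub (continuousOn_const.mul hφ.1)) ?_
    intro ζ hζ
    exact dna_den hmwn (hφS ζ hζ)
  have h1 : FF φ (mob B z) (mob A w) = PI (fun ζ => TT (mob A w) (φ (mob B ζ))) z :=
    (hPIN.1 B _ hB hc z hz).symm
  have hdet : (A : Mat) 0 0 * conj ((A : Mat) 0 0) - (A : Mat) 0 1 * conj ((A : Mat) 0 1) = 1 := by
    have := A.2
    rw [Matrix.det_fin_two] at this
    rw [← hA.1, ← hA.2]
    exact this
  have hkey : ∀ η : ℂ, ‖η‖ = 1 → TT (mob A w) (mob A η) =
      (conj (den A w) / den A w) * TT w η := by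
    intro η hη
    have hd1 := hA2 w hwD
    have hd2 := hA2 η (mem_closedBall_zero_iff.2 hη.le)
    unfold den at hd1 hd2
    unfold TT mob den
    rw [hA.1, hA.2] at hd1 hd2 ⊢
    have hd1c : (A : Mat) 0 1 * conj w + (A : Mat) 0 0 ≠ 0 := by
      intro h
      apply hd1
      have := congrArg conj h
      simpa using this
    simp only [map_div₀, map_add, map_mul, Complex.conj_conj]
    exact dna_alg _ _ _ _ _ _ _ hdet hd1 hd1c hd2 (dna_den hwn hη)
  rw [h1]
  have h2 : PI (fun ζ => TT (mob A w) (φ (mob B ζ))) z =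
      (conj (den A w) / den A w) * PI (fun ζ => TT w (φ ζ)) z := by
    have h4 : (∫ t in (0 : ℝ)..(2 * Real.pi), (PK z (Complex.exp (t * Complex.I)) : ℂ) *
          TT (mob A w) (φ (mob B (Complex.exp (t * Complex.I))))) =
        (conj (den A w) / den A w) * ∫ t in (0 : ℝ)..(2 * Real.pi),
          (PK z (Complex.exp (t * Complex.I)) : ℂ) * TT w (φ (Complex.exp (t * Complex.I))) := by
      rw [← intervalIntegral.integral_const_mul]
      apply intervalIntegral.integral_congr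
      intro t _
      have ht : Complex.exp (t * Complex.I) ∈ SS := by
        rw [mem_sphere_zero_iff_norm, Complex.norm_exp_ofReal_mul_I]
      dsimp only
      rw [hAB _ ht, hkey _ (hφS _ ht)]
      ring
    unfold PI
    dsimp only
    rw [h4]
    ring
  rw [h2]
  have h3 : PI (fun ζ => TT w (φ ζ)) z = 0 := hF
  rw [h3, mul_zero]

end Pool.Agent.Helper10.QD
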