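import Pool.Agent.Helper20.QD.St3

open Filter Topology Matrix Set Metric
open scoped ComplexConjugate

namespace Pool.Agent.Helper10.QD

open Pool.Agent.Helper35.PM Pool.Agent.Helper20.QD

/-- The affine function which vanishes on the line through `a` and `b`. -/
def lnfL (a b x : ℂ) : ℝ := ((x - a) * conj (a - b)).im

theorem lnf_conj {x : ℂ} (hx : ‖x‖ = 1) : conj x = x⁻¹ := by
  apply eq_inv_of_mul_eq_one_left
  rw [mul_comm, Complex.mul_conj, Complex.normSq_eq_norm_sq, hx]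
  norm_num

theorem lnf_zero {a b x : ℂ} (ha : ‖a‖ = 1) (hb : ‖b‖ = 1) (hx : ‖x‖ = 1) (hab : a ≠ b)
    (h : lnfL a b x = 0) : x = a ∨ x = b := by
  have ha0 : a ≠ 0 := by
    rintro rfl
    rw [norm_zero] at ha
    exact zero_ne_one ha
  have hb0 : b ≠ 0 := by
    rintro rfl
    rw [norm_zero] at hb
    exact zero_ne_one hb
  have hx0 : x ≠ 0 := by
    rintro rfl
    rw [norm_zero] at hx
    exact zero_ne_one hx
  have h1 : conj ((x - a) * conj (a - b)) = (x - a) * conj (a - b) := Complex.conj_eq_iff_im.2 h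
  rw [map_mul, Complex.conj_conj, map_sub, map_sub, lnf_conj ha, lnf_conj hb, lnf_conj hx] at h1
  have h2 : (x - a) * ((a - b) * (x - b)) = 0 := by
    field_simp at h1
    linear_combination h1
  rcases mul_eq_zero.1 h2 with h3 | h3
  · exact Or.inl (sub_eq_zero.1 h3)
  · rcases mul_eq_zero.1 h3 with h4 | h4
    · exact absurd (sub_eq_zero.1 h4) hab
    · exact Or.inr (sub_eq_zero.1 h4)

theorem lnf_bound {a b : ℂ} (ha : ‖a‖ = 1) (hb : ‖b‖ = 1) (hab : a ≠ b) :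
    |(a * conj (a - b)).im| < ‖a - b‖ := by
  have hN : 0 < ‖a - b‖ := norm_pos_iff.2 (sub_ne_zero.2 hab)
  have h1 : a.re ^ 2 + a.im ^ 2 = 1 := by
    have := Complex.sq_norm a
    rw [ha, Complex.normSq_apply] at this
    linarith
  have h2 : b.re ^ 2 + b.im ^ 2 = 1 := by
    have := Complex.sq_norm b
    rw [hb, Complex.normSq_apply] at this
    linarith
  have h3 : ‖a - b‖ ^ 2 = (a.re - b.re) ^ 2 + (a.im - b.im) ^ 2 := by
    rw [Complex.sq_norm, Complex.normSq_apply, Complex.sub_re, Complex.sub_im]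
    ring
  have h4 : (a * conj (a - b)).im = a.im * (a.re - b.re) - a.re * (a.im - b.im) := by
    simp
    ring
  rw [h4]
  apply abs_lt_of_sq_lt_sq _ hN.le
  have h5 : a.re * (a.re - b.re) + a.im * (a.im - b.im) = ‖a - b‖ ^ 2 / 2 := by
    rw [h3]
    linear_combination (1 / 2) * h1 - (1 / 2) * h2
  have h6 : (a.im * (a.re - b.re) - a.re * (a.im - b.im)) ^ 2 +
      (a.re * (a.re - b.re) + a.im * (a.im - b.im)) ^ 2 = ‖a - b‖ ^ 2 := by
    rw [h3]
    linear_combination ((a.re - b.re) ^ 2 + (a.im - b.im) ^ 2) * h1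
  rw [h5] at h6
  have h7 : 0 < (‖a - b‖ ^ 2 / 2) ^ 2 := by positivity
  linarith

theorem lnf_signs {a b : ℂ} (ha : ‖a‖ = 1) (hb : ‖b‖ = 1) (hab : a ≠ b) :
    ∃ x y : ℂ, ‖x‖ = 1 ∧ ‖y‖ = 1 ∧ 0 < lnfL a b x ∧ lnfL a b y < 0 := by
  have hN : 0 < ‖a - b‖ := norm_pos_iff.2 (sub_ne_zero.2 hab)
  have hN0 : (‖a - b‖ : ℂ) ≠ 0 := by
    exact_mod_cast hN.ne'
  have hb1 := abs_lt.1 (lnf_bound ha hb hab)
  have hx : ‖Complex.I * (a - b) / (‖a - b‖ : ℂ)‖ = 1 := by
    rw [norm_div, norm_mul, Complex.norm_I, one_mul, Complex.norm_real, norm_norm, div_self hN.ne']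
  have hd : (a - b) * conj (a - b) = (‖a - b‖ : ℂ) ^ 2 := by
    rw [Complex.mul_conj, Complex.normSq_eq_norm_sq]
    push_cast
    rfl
  have hL : ∀ s : ℝ, lnfL a b (s * (Complex.I * (a - b) / (‖a - b‖ : ℂ))) =
      s * ‖a - b‖ - (a * conj (a - b)).im := by
    intro s
    unfold lnfL
    have h1 : ((s * (Complex.I * (a - b) / (‖a - b‖ : ℂ)) - a) * conj (a - b)) =
        ((s * ‖a - b‖ : ℝ) : ℂ) * Complex.I - a * conj (a - b) := by
      have h2 : (s * (Complex.I * (a - b) / (‖a - b‖ : ℂ))) * conj (a - b) =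
          s * Complex.I * (((a - b) * conj (a - b)) / (‖a - b‖ : ℂ)) := by ring
      rw [sub_mul, h2, hd]
      push_cast
      field_simp
    rw [h1, Complex.sub_im, Complex.im_ofReal_mul, Complex.I_im, mul_one]
  refine ⟨(1 : ℝ) * (Complex.I * (a - b) / (‖a - b‖ : ℂ)),
    (-1 : ℝ) * (Complex.I * (a - b) / (‖a - b‖ : ℂ)), ?_, ?_, ?_, ?_⟩
  · rw [norm_mul, hx, Complex.norm_real]
    norm_num
  · rw [norm_mul, hx, Complex.norm_real]
    norm_num
  · rw [hL]
    linarith [hb1.2]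
  · rw [hL]
    linarith [hb1.1]

theorem hLNF (hLQC : StLQC) : StLNF := by
  intro S hS hsub
  obtain ⟨e⟩ := hS
  by_contra hcon
  push Not at hcon
  obtain ⟨hq1, hq2, hq3, -, -, hq4, hq5, -⟩ := hLQC
  have hi : Qinf ∈ S := hcon _ hq2
  have hp : ∀ z, Qp z ∈ S := fun z => hcon _ (hq3 z).1
  set a : ℂ := (e ⟨Qinf, hi⟩ : ℂ) with ha
  set b : ℂ := (e ⟨Qp 0, hp 0⟩ : ℂ) with hb
  have han : ‖a‖ = 1 := Circle.norm_coe _
  have hbn : ‖b‖ = 1 := Circle.norm_coe _
  have hab : a ≠ b := by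
    intro h
    have h1 := e.injective (Circle.coe_injective h)
    exact (hq3 0).2 (congrArg Subtype.val h1).symm
  let f : ℂ → ℝ := fun z => lnfL a b (e ⟨Qp z, hp z⟩ : ℂ)
  have hf : Continuous f := by
    have h1 : Continuous fun z : ℂ => (e ⟨Qp z, hp z⟩ : ℂ) :=
      continuous_subtype_val.comp (e.continuous.comp (hq4.subtype_mk hp))
    change Continuous fun z => (((e ⟨Qp z, hp z⟩ : ℂ) - a) * conj (a - b)).im
    exact Complex.continuous_im.comp ((h1.sub continuous_const).mul continuous_const)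
  have hf0 : ∀ z ∈ ({0} : Set ℂ)ᶜ, f z ≠ 0 := by
    intro z hz h
    rcases lnf_zero han hbn (Circle.norm_coe _) hab h with h1 | h1
    · have h2 := e.injective (Circle.coe_injective h1)
      exact (hq3 z).2 (congrArg Subtype.val h2)
    · have h2 := e.injective (Circle.coe_injective h1)
      exact hz (hq5 (congrArg Subtype.val h2))
  have hLa : lnfL a b a = 0 := by
    unfold lnfL
    rw [sub_self, zero_mul, Complex.zero_im]
  have hLb : lnfL a b b = 0 := by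
    unfold lnfL
    rw [← neg_sub a b, neg_mul, Complex.mul_conj, Complex.neg_im, Complex.ofReal_im, neg_zero]
  have hpt : ∀ x : ℂ, ‖x‖ = 1 → lnfL a b x ≠ 0 → ∃ z ∈ ({0} : Set ℂ)ᶜ, f z = lnfL a b x := by
    intro x hx hLx
    let xc : Circle := ⟨x, mem_sphere_zero_iff_norm.2 hx⟩
    obtain ⟨Q, hQ⟩ := e.surjective xc
    have hQS : (Q : Mat) ∈ sph := hsub Q.2
    rcases hq1 _ hQS with h1 | ⟨z, h1⟩
    · exfalso
      apply hLx
      have h2 : Q = ⟨Qinf, hi⟩ := Subtype.ext h1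
      have h3 : x = a := by
        rw [ha, ← h2, hQ]
      rw [h3]
      exact hLa
    · have h2 : Q = ⟨Qp z, hp z⟩ := Subtype.ext h1
      have h3 : (e ⟨Qp z, hp z⟩ : ℂ) = x := by
        rw [← h2, hQ]
      refine ⟨z, ?_, ?_⟩
      · rintro rfl
        apply hLx
        rw [← h3]
        exact hLb
      · change lnfL a b (e ⟨Qp z, hp z⟩ : ℂ) = _
        rw [h3]
  obtain ⟨x, y, hx, hy, hx1, hy1⟩ := lnf_signs han hbn hab
  obtain ⟨z1, hz1, hfz1⟩ := hpt x hx hx1.ne'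
  obtain ⟨z2, hz2, hfz2⟩ := hpt y hy hy1.ne
  have hconn : IsPreconnected ({0} : Set ℂ)ᶜ :=
    (isConnected_compl_singleton_of_one_lt_rank (by simp) 0).isPreconnected
  have h3 := hconn.intermediate_value hz2 hz1 hf.continuousOn
  obtain ⟨z, hz, hfz⟩ := h3 ⟨(by rw [hfz2]; exact hy1.le : f z2 ≤ 0), (by rw [hfz1]; exact hx1.le : 0 ≤ f z1)⟩
  exact hf0 z hz hfz

end Pool.Agent.Helper10.QD
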