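import Pool.Agent.Helper58.QD.StG

/-!
# Project QD (MP_087a81_gt), module PTB: pointwise estimate of a family of forms vanishing at a point
-/

set_option autoImplicit false
set_option maxSynthPendingDepth 3

open Set Filter Topology MeasureTheory
open scoped ContDiff ENNReal

noncomputable section

namespace Pool.Agent.Helper10.QD

open Helper62.LH Helper62.DSH Helper58.QD

private lemma q2_cont_PTB {n j : ℕ} : Continuous (fun t : Tn n j => q2 t) := by
  unfold q2 ipt
  refine Continuous.div_const ?_ _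
  exact continuous_finsetSum _ fun I _ => (continuous_apply I).mul (continuous_apply I)

private lemma NF_cont_PTB {n j : ℕ} {g : E n → Bl n} {Γ : E n → Bm n} {F : Fin n → E n → E n}
    {G : E n → Fin n → Fin n → Fin n → ℝ} (hF : Frm g Γ F G) {ζ : E n → Tn n j}
    (hζ : ContDiff ℝ ∞ ζ) : Continuous (fun y => NF F G ζ y) := by
  have hD : Continuous (fderiv ℝ ζ) := hζ.continuous_fderiv (by simp)
  unfold NF
  refine continuous_finsetSum _ fun a _ => ?_
  have h1 : Continuous (fun y => cv F G ζ y a) := by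
    unfold cv
    refine Continuous.sub (hD.clm_apply (hF.smF a).continuous) ?_
    refine continuous_pi fun I => ?_
    unfold rho
    refine continuous_finsetSum _ fun k _ => continuous_finsetSum _ fun l _ => ?_
    exact (hF.smG a (I k) l).continuous.mul
      ((continuous_apply (Function.update I k l)).comp hζ.continuous)
  exact q2_cont_PTB.comp h1

private lemma ipt_add_PTB {n j : ℕ} (s t u : Tn n j) : ipt (s + t) u = ipt s u + ipt t u := by
  unfold ipt
  rw [← add_div, ← Finset.sum_add_distrib]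
  congr 1
  refine Finset.sum_congr rfl fun I _ => ?_
  simp only [Pi.add_apply]
  ring

private lemma ipt_smul_PTB {n j : ℕ} (c : ℝ) (s u : Tn n j) : ipt (c • s) u = c * ipt s u := by
  unfold ipt
  rw [← mul_div_assoc, Finset.mul_sum]
  congr 1
  refine Finset.sum_congr rfl fun I _ => ?_
  simp only [Pi.smul_apply, smul_eq_mul]
  ring

private lemma ipt_zero_PTB {n j : ℕ} (u : Tn n j) : ipt (0 : Tn n j) u = 0 := by
  unfold ipt
  simp

private lemma ipt_comm_PTB {n j : ℕ} (s u : Tn n j) : ipt s u = ipt u s := by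
  unfold ipt
  congr 1
  exact Finset.sum_congr rfl fun I _ => mul_comm _ _

private lemma ipt_sum_PTB {n j : ℕ} (s : Fin n → Tn n j) (u : Tn n j) (S : Finset (Fin n)) :
    ipt (∑ a ∈ S, s a) u = ∑ a ∈ S, ipt (s a) u := by
  classical
  induction S using Finset.induction_on with
  | empty => simp [ipt_zero_PTB]
  | insert a S ha ih => rw [Finset.sum_insert ha, Finset.sum_insert ha, ipt_add_PTB, ih]

/-- derivative of the squared norm along a curve -/
private lemma q2_deriv_PTB {n j : ℕ} {ζ : E n → Tn n j} (hζ : ContDiff ℝ ∞ ζ) {c v : ℝ → E n}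
    {t : ℝ} (hc : HasDerivWithinAt c (v t) (Icc 0 1) t) :
    HasDerivWithinAt (fun s => q2 (ζ (c s))) (2 * ipt (fderiv ℝ ζ (c t) (v t)) (ζ (c t)))
      (Icc 0 1) t := by
  have h1 : HasFDerivAt ζ (fderiv ℝ ζ (c t)) (c t) :=
    (hζ.differentiable (by simp) (c t)).hasFDerivAt
  have h2 : HasDerivWithinAt (fun s => ζ (c s)) (fderiv ℝ ζ (c t) (v t)) (Icc 0 1) t :=
    h1.comp_hasDerivWithinAt t hc
  have h3 := hasDerivWithinAt_pi.1 h2
  have h4 : HasDerivWithinAt (fun s => (∑ I, ζ (c s) I * ζ (c s) I) / (j.factorial : ℝ))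
      ((∑ I, (fderiv ℝ ζ (c t) (v t) I * ζ (c t) I + ζ (c t) I * fderiv ℝ ζ (c t) (v t) I)) /
        (j.factorial : ℝ)) (Icc 0 1) t := by
    refine HasDerivWithinAt.div_const ?_ _
    exact HasDerivWithinAt.fun_sum fun I _ => (h3 I).mul (h3 I)
  have h5 : (∑ I, (fderiv ℝ ζ (c t) (v t) I * ζ (c t) I +
      ζ (c t) I * fderiv ℝ ζ (c t) (v t) I)) / (j.factorial : ℝ) =
      2 * ipt (fderiv ℝ ζ (c t) (v t)) (ζ (c t)) := by
    unfold ipt
    rw [← mul_div_assoc, Finset.mul_sum]
    congr 1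
    refine Finset.sum_congr rfl fun I _ => ?_
    ring
  rw [h5] at h4
  exact h4

/-- the pointwise estimate of the derivative -/
private lemma bd_PTB (hNrm : TNrm) (hRho : TRho) {n j : ℕ} {g : E n → Bl n} {Γ : E n → Bm n}
    {F : Fin n → E n → E n} {G : E n → Fin n → Fin n → Fin n → ℝ} (hF : Frm g Γ F G)
    (ζ : E n → Tn n j) (x w : E n) :
    |ipt (fderiv ℝ ζ x w) (ζ x)| ≤ √(g x w w) * √(NF F G ζ x) * √(q2 (ζ x)) := by
  obtain ⟨-, -, n3, -, n5, -⟩ := hNrm n j
  set e : Fin n → ℝ := fun a => g x w (F a x) with he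
  have hw : w = ∑ a, e a • F a x := ((hF.onb x).expd w).symm
  have hgw : g x w w = ∑ a, e a ^ 2 := by
    have h1 : g x w w = g x w (∑ a, e a • F a x) := by rw [← hw]
    rw [h1, map_sum]
    refine Finset.sum_congr rfl fun a _ => ?_
    rw [map_smul, smul_eq_mul]
    simp only [he]
    ring
  have hD : fderiv ℝ ζ x w = (∑ a, e a • cv F G ζ x a) +
      ∑ a, e a • rho (G x a) (ζ x) := by
    have h1 : fderiv ℝ ζ x w = fderiv ℝ ζ x (∑ a, e a • F a x) := by rw [← hw]
    rw [h1, map_sum, ← Finset.sum_add_distrib]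
    refine Finset.sum_congr rfl fun a _ => ?_
    rw [map_smul, ← smul_add]
    congr 1
    unfold cv
    abel
  have hz : ipt (∑ a, e a • rho (G x a) (ζ x)) (ζ x) = 0 := by
    rw [ipt_sum_PTB]
    refine Finset.sum_eq_zero fun a _ => ?_
    rw [ipt_smul_PTB]
    have h1 := (hRho n j (G x a) (G x a)).2.1 (fun b c => hF.anti x a b c) (ζ x) (ζ x)
    rw [ipt_comm_PTB (ζ x) (rho (G x a) (ζ x))] at h1
    have h2 : ipt (rho (G x a) (ζ x)) (ζ x) = 0 := by linarith
    rw [h2, mul_zero]
  have hI : ipt (fderiv ℝ ζ x w) (ζ x) = ipt (∑ a, e a • cv F G ζ x a) (ζ x) := by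
    rw [hD, ipt_add_PTB, hz, add_zero]
  rw [hI, hgw]
  refine (n3 _ _).trans ?_
  refine mul_le_mul_of_nonneg_right ?_ (Real.sqrt_nonneg _)
  rw [← Real.sqrt_mul (Finset.sum_nonneg fun a _ => sq_nonneg _)]
  exact Real.sqrt_le_sqrt (n5 n e (fun a => cv F G ζ x a))

/-- the comparison of `u` with the square of the primitive of `√ w` -/
private lemma comp_PTB (U U' W : ℝ → ℝ) (D : ℝ) (hD : 0 ≤ D) (hW : Continuous W)
    (hU : ∀ t ∈ Icc (0 : ℝ) 1, HasDerivWithinAt U (U' t) (Icc 0 1) t)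
    (hU0 : U 0 = 0) (hW0 : ∀ t, 0 ≤ W t)
    (hb : ∀ t ∈ Icc (0 : ℝ) 1, U' t ≤ 2 * (D * √(W t)) * √(U t)) :
    U 1 ≤ D ^ 2 * ∫ t in (0 : ℝ)..1, W t := by
  have hS : Continuous (fun t => √(W t)) := Real.continuous_sqrt.comp hW
  set I : ℝ := ∫ t in (0 : ℝ)..1, √(W t) with hI
  have key : ∀ δ : ℝ, 0 < δ → U 1 ≤ (2 * δ + D * I) ^ 2 := by
    intro δ hδ
    set G : ℝ → ℝ := fun t => δ + δ * t + D * ∫ s in (0 : ℝ)..t, √(W s) with hG
    have hGd : ∀ t, HasDerivAt G (δ + D * √(W t)) t := by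
      intro t
      have h1 : HasDerivAt (fun t => ∫ s in (0 : ℝ)..t, √(W s)) (√(W t)) t :=
        intervalIntegral.integral_hasDerivAt_right (hS.intervalIntegrable _ _)
          hS.stronglyMeasurable.stronglyMeasurableAtFilter hS.continuousAt
      have h2 : HasDerivAt (fun t : ℝ => δ + δ * t) δ t := by
        simpa using ((hasDerivAt_id t).const_mul δ).const_add δ
      exact h2.add (h1.const_mul D)
    have hGpos : ∀ t, 0 ≤ t → δ ≤ G t := by
      intro t ht
      have h1 : 0 ≤ ∫ s in (0 : ℝ)..t, √(W s) :=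
        intervalIntegral.integral_nonneg ht fun s _ => Real.sqrt_nonneg _
      have h2 : 0 ≤ D * ∫ s in (0 : ℝ)..t, √(W s) := mul_nonneg hD h1
      have h3 : 0 ≤ δ * t := mul_nonneg hδ.le ht
      simp only [hG]
      linarith
    have hB : ∀ t, HasDerivAt (fun t => G t ^ 2) (2 * G t * (δ + D * √(W t))) t := by
      intro t
      have h4 : HasDerivAt (fun t => G t * G t)
          ((δ + D * √(W t)) * G t + G t * (δ + D * √(W t))) t := (hGd t).mul (hGd t)
      have h5 : (fun t => G t ^ 2) = fun t => G t * G t := by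
        funext s
        ring
      rw [h5]
      convert h4 using 1
      ring
    have main := image_le_of_deriv_right_lt_deriv_boundary (f := U) (f' := U') (a := 0) (b := 1)
      (B := fun t => G t ^ 2) (B' := fun t => 2 * G t * (δ + D * √(W t)))
      (fun t ht => (hU t ht).continuousWithinAt)
      (fun t ht => by
        have h1 := hU t ⟨ht.1, ht.2.le⟩
        exact h1.mono_of_mem_nhdsWithin (Icc_mem_nhdsGE_of_mem ht))
      (by
        rw [hU0]
        positivity) hB
      (by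
        intro t ht hUG
        have hGt : δ ≤ G t := hGpos t ht.1
        have hG0 : 0 < G t := lt_of_lt_of_le hδ hGt
        have h1 := hb t ⟨ht.1, ht.2.le⟩
        have h2 : √(U t) = G t := by
          rw [hUG]
          exact Real.sqrt_sq hG0.le
        rw [h2] at h1
        have h3 : 0 < G t * δ := mul_pos hG0 hδ
        refine lt_of_le_of_lt h1 ?_
        nlinarith)
    have h1 := main (right_mem_Icc.2 zero_le_one)
    refine h1.trans (le_of_eq ?_)
    simp only [hG, hI]
    ring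
  have hlim : U 1 ≤ (D * I) ^ 2 := by
    have h1 : Tendsto (fun δ : ℝ => (2 * δ + D * I) ^ 2) (𝓝[>] 0) (𝓝 ((2 * 0 + D * I) ^ 2)) := by
      have : Continuous (fun δ : ℝ => (2 * δ + D * I) ^ 2) := by fun_prop
      exact (this.tendsto 0).mono_left nhdsWithin_le_nhds
    have h2 : U 1 ≤ (2 * 0 + D * I) ^ 2 :=
      ge_of_tendsto h1 (eventually_nhdsWithin_of_forall fun δ hδ => key δ hδ)
    simpa using h2
  have hCS : I ^ 2 ≤ ∫ t in (0 : ℝ)..1, W t := by
    have h1 : 0 ≤ ∫ t in (0 : ℝ)..1, (√(W t) - I) ^ 2 :=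
      intervalIntegral.integral_nonneg zero_le_one fun t _ => sq_nonneg _
    have h2 : ∫ t in (0 : ℝ)..1, (√(W t) - I) ^ 2 =
        ∫ t in (0 : ℝ)..1, ((W t - (2 * I) * √(W t)) + I ^ 2) := by
      refine intervalIntegral.integral_congr fun t _ => ?_
      have h3 : √(W t) ^ 2 = W t := Real.sq_sqrt (hW0 t)
      linear_combination h3
    rw [h2, intervalIntegral.integral_add, intervalIntegral.integral_sub,
      intervalIntegral.integral_const_mul, ← hI, intervalIntegral.integral_const] at h1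
    · simp only [sub_zero, smul_eq_mul, one_mul] at h1
      nlinarith
    · exact hW.intervalIntegrable _ _
    · exact (hS.const_mul _).intervalIntegrable _ _
    · exact (hW.sub (hS.const_mul _)).intervalIntegrable _ _
    · exact continuous_const.intervalIntegrable _ _
  calc U 1 ≤ (D * I) ^ 2 := hlim
    _ = D ^ 2 * I ^ 2 := by ring
    _ ≤ _ := mul_le_mul_of_nonneg_left hCS (sq_nonneg D)

theorem hPtb (_hChr : StChr) (hMg : StMg) (hRgc : StRgc) (hNrm : TNrm) (hRho : TRho) : SPtb := by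
  intro n j g Γ F G hg hΓ hF hcpl M ζ hζ h hh hle x y hx
  obtain ⟨c, hc0, hc1, hcd⟩ := hMg n g hg hcpl x y
  obtain ⟨v, hgeo, hsp⟩ := hRgc n g Γ hg hΓ c x y ⟨hc0, hc1, hcd⟩
  -- the extended curve
  set P : ℝ → ℝ := fun t => (projIcc (0 : ℝ) 1 zero_le_one t : ℝ) with hP
  have hPc : Continuous P := continuous_subtype_val.comp continuous_projIcc
  have hPm : ∀ t, P t ∈ Icc (0 : ℝ) 1 := fun t => (projIcc (0 : ℝ) 1 zero_le_one t).2
  have hPe : ∀ t ∈ Icc (0 : ℝ) 1, P t = t := by
    intro t ht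
    simp only [hP]
    rw [projIcc_of_mem zero_le_one ht]
  have hcc : ContinuousOn c (Icc 0 1) := fun t ht => (hgeo.dc t ht).continuousWithinAt
  have hcP : Continuous (fun t => c (P t)) := hcc.comp_continuous hPc hPm
  have hN0 : ∀ a z, 0 ≤ NF F G (ζ a) z := by
    intro a z
    unfold NF
    exact Finset.sum_nonneg fun b _ => ((hNrm n j).1 _).1
  have one : ∀ a, q2 (ζ a y) ≤ dg g x y ^ 2 * ∫ t in (0 : ℝ)..1, NF F G (ζ a) (c (P t)) := by
    intro a
    set U : ℝ → ℝ := fun t => q2 (ζ a (c t)) with hUdef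
    set W : ℝ → ℝ := fun t => NF F G (ζ a) (c (P t)) with hWdef
    have hWc : Continuous W := (NF_cont_PTB hF (hζ a)).comp hcP
    have hU : ∀ t ∈ Icc (0 : ℝ) 1, HasDerivWithinAt U
        (2 * ipt (fderiv ℝ (ζ a) (c t) (v t)) (ζ a (c t))) (Icc 0 1) t := by
      intro t ht
      exact q2_deriv_PTB (hζ a) (hgeo.dc t ht)
    have hb : ∀ t ∈ Icc (0 : ℝ) 1, 2 * ipt (fderiv ℝ (ζ a) (c t) (v t)) (ζ a (c t)) ≤
        2 * (|dg g x y| * √(W t)) * √(U t) := by
      intro t ht
      have h1 := bd_PTB hNrm hRho hF (ζ a) (c t) (v t)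
      rw [hsp t ht, Real.sqrt_sq_eq_abs] at h1
      have h2 := le_of_abs_le h1
      have hWt : W t = NF F G (ζ a) (c t) := by
        simp only [hWdef]
        rw [hPe t ht]
      rw [hWt]
      have h7 : √(U t) = √(q2 (ζ a (c t))) := rfl
      rw [h7]
      linarith
    have hU0 : U 0 = 0 := by
      simp only [hUdef]
      rw [hc0, hx a]
      exact ipt_zero_PTB _
    have hfin := comp_PTB U _ W |dg g x y| (abs_nonneg _) hWc hU hU0 (fun t => hN0 a _) hb
    rw [sq_abs] at hfin
    have hU1 : U 1 = q2 (ζ a y) := by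
      simp only [hUdef]
      rw [hc1]
    rw [hU1] at hfin
    exact hfin
  have hhc : Continuous (fun t => h (c (P t))) := hh.comp hcP
  have hfin : ∑ a, q2 (ζ a y) ≤ dg g x y ^ 2 * ∫ t in (0 : ℝ)..1, h (c (P t)) := by
    have h1 : ∑ a, q2 (ζ a y) ≤ ∑ a, dg g x y ^ 2 * ∫ t in (0 : ℝ)..1, NF F G (ζ a) (c (P t)) :=
      Finset.sum_le_sum fun a _ => one a
    rw [← Finset.mul_sum, ← intervalIntegral.integral_finsetSum] at h1
    · refine h1.trans (mul_le_mul_of_nonneg_left ?_ (sq_nonneg _))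
      refine intervalIntegral.integral_mono_on zero_le_one ?_ (hhc.intervalIntegrable _ _)
        fun t _ => hle _
      refine Continuous.intervalIntegrable ?_ _ _
      exact continuous_finsetSum _ fun a _ => (NF_cont_PTB hF (hζ a)).comp hcP
    · intro a _
      exact ((NF_cont_PTB hF (hζ a)).comp hcP).intervalIntegrable _ _
  have hh0 : ∀ z, 0 ≤ h z := fun z => (Finset.sum_nonneg fun a _ => hN0 a z).trans (hle z)
  have hI0 : (∫ t in (0 : ℝ)..1, h (c (P t))) = ∫ t in Icc (0 : ℝ) 1, h (c (P t)) := by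
    rw [intervalIntegral.integral_of_le zero_le_one, integral_Icc_eq_integral_Ioc]
  rw [hI0] at hfin
  have hWint : Integrable (fun t => h (c (P t))) (volume.restrict (Icc (0 : ℝ) 1)) :=
    (hhc.continuousOn.integrableOn_compact isCompact_Icc)
  calc ENNReal.ofReal (∑ a, q2 (ζ a y))
      ≤ ENNReal.ofReal (dg g x y ^ 2 * ∫ t in Icc (0 : ℝ) 1, h (c (P t))) :=
        ENNReal.ofReal_le_ofReal hfin
    _ = ENNReal.ofReal (dg g x y ^ 2) * ENNReal.ofReal (∫ t in Icc (0 : ℝ) 1, h (c (P t))) :=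
        ENNReal.ofReal_mul (sq_nonneg _)
    _ = ENNReal.ofReal (dg g x y ^ 2) * ∫⁻ t in Icc (0 : ℝ) 1, ENNReal.ofReal (h (c (P t))) := by
        rw [ofReal_integral_eq_lintegral_ofReal hWint
          (Eventually.of_forall fun t => hh0 _)]
    _ ≤ ENNReal.ofReal (dg g x y ^ 2) * ∫⁻ t in Icc (0 : ℝ) 1, HS g h t x y := by
        refine mul_le_mul_right ?_ _
        refine setLIntegral_mono' measurableSet_Icc fun t ht => ?_
        have hmem : c t ∈ Gt g t x y := by
          have h0 : (0 : ℝ) ∈ Icc (0 : ℝ) 1 := left_mem_Icc.2 zero_le_one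
          have h1 : (1 : ℝ) ∈ Icc (0 : ℝ) 1 := right_mem_Icc.2 zero_le_one
          constructor
          · rw [← hc0]
            rw [hcd 0 h0 t ht, hc0, zero_sub, abs_neg, abs_of_nonneg ht.1]
          · have h2 := hcd t ht 1 h1
            rw [hc1] at h2
            rw [h2, abs_sub_comm, abs_of_nonneg (sub_nonneg.2 ht.2)]
        rw [hPe t ht]
        exact le_iSup₂ (f := fun z (_ : z ∈ Gt g t x y) => ENNReal.ofReal (h z)) (c t) hmem

end Pool.Agent.Helper10.QD
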