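import Pool.Agent.Helper58.QD.StM

/-!
# Project QD (MP_087a81_gt), module SUP: harmonic forms are subsolutions
-/

set_option autoImplicit false
set_option maxSynthPendingDepth 3

open Helper62.LH Helper62.DSH Helper58.QD MeasureTheory Set Filter Topology
open scoped ContDiff ENNReal

noncomputable section

namespace Pool.Agent.Helper10.QD

/-! ### continuity -/

private theorem ipt_cont_SUP {n j : ℕ} {s t : E n → Tn n j} (hs : Continuous s)
    (ht : Continuous t) : Continuous (fun x => ipt (s x) (t x)) := by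
  unfold ipt
  have hs' := continuous_pi_iff.1 hs
  have ht' := continuous_pi_iff.1 ht
  exact (continuous_finsetSum _ fun I _ => (hs' I).mul (ht' I)).div_const _

private theorem ct_cont_SUP {n j : ℕ} (a : Fin n) {s : E n → Tn n (j + 1)} (hs : Continuous s) :
    Continuous (fun x => ct a (s x)) := by
  have hs' := continuous_pi_iff.1 hs
  exact continuous_pi fun K => hs' (Fin.cons a K)

private theorem rc_cont_SUP (hChr : StChr) {n : ℕ} {g : E n → Bl n} {Γ : E n → Bm n}
    {F : Fin n → E n → E n} (hg : IsMet g) (hΓ : IsChr g Γ) (hF : ∀ a, ContDiff ℝ ∞ (F a))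
    (a b c l : Fin n) : Continuous (fun x => Rc g Γ F x a b c l) := by
  have hgc := hg.smooth.continuous
  have hΓs := (hChr n g Γ hg hΓ).1
  have hΓc := hΓs.continuous
  have hΓd := hΓs.continuous_fderiv (by simp)
  have hFc : ∀ a, Continuous (F a) := fun a => (hF a).continuous
  have ha := hFc a
  have hb := hFc b
  have hc := hFc c
  have hl := hFc l
  have h2 : Continuous (fun x => Rm Γ x (F a x) (F b x) (F c x)) := by
    unfold Rm
    refine ((Continuous.add (Continuous.sub ?_ ?_) ?_).sub ?_)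
    · exact ((hΓd.clm_apply ha).clm_apply hb).clm_apply hc
    · exact ((hΓd.clm_apply hb).clm_apply ha).clm_apply hc
    · exact (hΓc.clm_apply ha).clm_apply ((hΓc.clm_apply hb).clm_apply hc)
    · exact (hΓc.clm_apply hb).clm_apply ((hΓc.clm_apply ha).clm_apply hc)
  exact (hgc.clm_apply h2).clm_apply hl

private theorem wz_cont_SUP (hChr : StChr) {n m : ℕ} {g : E n → Bl n} {Γ : E n → Bm n}
    {F : Fin n → E n → E n} (hg : IsMet g) (hΓ : IsChr g Γ) (hF : ∀ a, ContDiff ℝ ∞ (F a))
    {v : E n → Tn n (m + 1)} (hv : Continuous v) :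
    Continuous (fun x => Wz (Rc g Γ F x) (v x)) := by
  unfold Wz
  refine continuous_finsetSum _ fun a _ => continuous_finsetSum _ fun b _ => ?_
  refine ipt_cont_SUP (ct_cont_SUP a hv) (ct_cont_SUP b ?_)
  unfold rho
  refine continuous_pi fun I => continuous_finsetSum _ fun k _ => continuous_finsetSum _ fun l _ => ?_
  exact (rc_cont_SUP hChr hg hΓ hF a b (I k) l).mul (continuous_pi_iff.1 hv _)

private theorem integ_SUP {n : ℕ} {h : E n → ℝ} (hc : Continuous h) {K : Set (E n)}
    (hK : IsCompact K) (h0 : ∀ x, x ∉ K → h x = 0) : Integrable h :=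
  hc.integrable_of_hasCompactSupport (HasCompactSupport.intro hK fun x hx => h0 x hx)

private theorem ipt_zero_SUP {n j : ℕ} (u : Tn n j) : ipt (0 : Tn n j) u = 0 := by
  unfold ipt
  simp

private theorem ipt_comm_SUP {n j : ℕ} (s u : Tn n j) : ipt s u = ipt u s := by
  unfold ipt
  congr 1
  exact Finset.sum_congr rfl fun I _ => mul_comm _ _

private theorem q2_smooth_SUP {n j : ℕ} {P : E n → Tn n j} (hP : ContDiff ℝ ∞ P) :
    ContDiff ℝ ∞ (fun x => q2 (P x)) := by
  unfold q2 ipt
  have h := contDiff_pi.1 hP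
  exact (ContDiff.sum fun I _ => (h I).mul (h I)).div_const _

/-- derivative of the power of the truncation -/
private theorem tau_deriv_SUP {T s : ℝ} (hT : 0 < T) (hs : 0 < s) (p : ℕ) :
    HasDerivAt (fun s => tau T s ^ p) (p * tau T s ^ (p - 1) * (T / (T + s)) ^ 2) s := by
  have h1 : T + s ≠ 0 := by positivity
  have h2 : HasDerivAt (fun s => tau T s) ((T / (T + s)) ^ 2) s := by
    unfold tau
    have h3 : HasDerivAt (fun s : ℝ => T * s) T s := by
      simpa using (hasDerivAt_id s).const_mul T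
    have h4 : HasDerivAt (fun s : ℝ => T + s) 1 s := by
      simpa using (hasDerivAt_id s).const_add T
    have h5 := h3.div h4 h1
    have h6 : (T / (T + s)) ^ 2 = (T * (T + s) - T * s * 1) / (T + s) ^ 2 := by
      rw [div_pow]
      congr 1
      ring
    rw [h6]
    exact h5
  exact h2.pow p

theorem hSup : StChr → StTr → StDlv → TNrm → TDer → TLbz → SBop → SSup := by
  intro hChr hTr hDlv hNrm hDer hLbz hBop
  intro n m g Γ F G hg hΓ hF P hP hAl hd0 hδ0 S lam hlam hW ε T p χ hε hT hχ hS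
  have hvs : Continuous (vol g) := (hDlv n g Γ hg hΓ).1.continuous
  have hvp := (hDlv n g Γ hg hΓ).2.1
  have hnn : ∀ t : Tn n (m + 1), 0 ≤ q2 t := fun t => ((hNrm n (m + 1)).1 t).1
  have hcs : ∀ s t : Tn n (m + 1), |ipt s t| ≤ √(q2 s) * √(q2 t) := (hNrm n (m + 1)).2.2.1
  obtain ⟨hχs, hχc⟩ := hχ
  have hgs : ∀ (z : E n → ℝ) (x : E n), gs g z x = ∑ a, (fderiv ℝ z x (F a x)) ^ 2 := by
    intro z x
    unfold gs
    rw [(hTr n g hg x (fun a => F a x) (hF.onb x)).2.1]
    exact Finset.sum_congr rfl fun a _ => (sq _).symm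
  set w : E n → ℝ := fun x => q2 (P x) + ε with hw
  have hwp : ∀ x, 0 < w x := fun x => by
    have := hnn (P x)
    simp only [hw]
    linarith
  have hqw : ∀ x, q2 (P x) ≤ w x := fun x => by simp only [hw]; linarith
  have hws : ContDiff ℝ ∞ w := (q2_smooth_SUP hP).add contDiff_const
  -- the function of `w`
  set Fw : E n → ℝ := fun x => tau T (w x) ^ p with hFw
  set F' : E n → ℝ := fun x => p * tau T (w x) ^ (p - 1) * (T / (T + w x)) ^ 2 with hF'
  have htp : ∀ x, 0 < tau T (w x) := fun x => by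
    unfold tau
    have := hwp x
    positivity
  have hFp : ∀ x, 0 ≤ Fw x := fun x => pow_nonneg (htp x).le _
  have hF'p : ∀ x, 0 ≤ F' x := fun x => by
    simp only [hF']
    have := htp x
    positivity
  have hTw : ∀ x, T + w x ≠ 0 := fun x => by
    have := hwp x
    positivity
  have htaus : ContDiff ℝ ∞ (fun x => tau T (w x)) := by
    unfold tau
    exact (contDiff_const.mul hws).div (contDiff_const.add hws) hTw
  have hFs : ContDiff ℝ ∞ Fw := htaus.pow p
  have hF'c : Continuous F' := by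
    simp only [hF']
    exact (continuous_const.mul (htaus.continuous.pow _)).mul
      ((continuous_const.div (continuous_const.add hws.continuous) hTw).pow 2)
  have hFd : ∀ x v, fderiv ℝ Fw x v = F' x * fderiv ℝ w x v := by
    intro x v
    have h1 : HasFDerivAt w (fderiv ℝ w x) x := (hws.differentiable (by simp) x).hasFDerivAt
    have h2 := (tau_deriv_SUP hT (hwp x) p).comp_hasFDerivAt x h1
    have h3 : fderiv ℝ Fw x = (p * tau T (w x) ^ (p - 1) * (T / (T + w x)) ^ 2) • fderiv ℝ w x :=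
      h2.fderiv
    rw [h3]
    rfl
  set φ : E n → ℝ := fun x => χ x ^ 2 * Fw x with hφ
  have hφs : ContDiff ℝ ∞ φ := (hχs.pow 2).mul hFs
  have hχ0 : ∀ x, x ∉ tsupport χ → χ x = 0 := fun x hx => image_eq_zero_of_notMem_tsupport hx
  have hφ0 : ∀ x, x ∉ tsupport χ → φ x = 0 := fun x hx => by
    simp only [hφ, hχ0 x hx]
    ring
  have hφc : Cc φ := ⟨hφs, HasCompactSupport.intro hχc hφ0⟩
  have hφd : ∀ x v, fderiv ℝ φ x v =
      2 * χ x * fderiv ℝ χ x v * Fw x + χ x ^ 2 * F' x * fderiv ℝ w x v := by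
    intro x v
    have h1 : HasFDerivAt χ (fderiv ℝ χ x) x := (hχs.differentiable (by simp) x).hasFDerivAt
    have h2 : HasFDerivAt Fw (fderiv ℝ Fw x) x := (hFs.differentiable (by simp) x).hasFDerivAt
    have h3 := ((h1.pow 2).mul h2).fderiv
    have h4 : fderiv ℝ φ x v = χ x ^ 2 * fderiv ℝ Fw x v +
        Fw x * ((2 * χ x) * fderiv ℝ χ x v) := by
      have h5 : fderiv ℝ φ x = _ := h3
      rw [h5]
      simp
    rw [h4, hFd]
    ring
  have hwd : ∀ x a, fderiv ℝ w x (F a x) = 2 * ipt (cv F G P x a) (P x) := by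
    intro x a
    have h1 := (hLbz n (m + 1) g Γ F G hF).1 P P hP hP x a
    have h2 : fderiv ℝ w x = fderiv ℝ (fun y => ipt (P y) (P y)) x := by
      simp only [hw]
      rw [fderiv_add_const]
      rfl
    rw [h2, h1, ipt_comm_SUP (P x) (cv F G P x a)]
    ring
  -- the gradient of `w`
  have hgw : ∀ x, gs g w x ≤ 4 * w x * NF F G P x := by
    intro x
    rw [hgs]
    unfold NF
    rw [Finset.mul_sum]
    refine Finset.sum_le_sum fun a _ => ?_
    rw [hwd]
    have h1 := hcs (cv F G P x a) (P x)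
    have h2 : ipt (cv F G P x a) (P x) ^ 2 ≤ q2 (cv F G P x a) * q2 (P x) := by
      have h3 : |ipt (cv F G P x a) (P x)| ^ 2 ≤ (√(q2 (cv F G P x a)) * √(q2 (P x))) ^ 2 :=
        pow_le_pow_left₀ (abs_nonneg _) h1 2
      rw [sq_abs, mul_pow, Real.sq_sqrt (hnn _), Real.sq_sqrt (hnn _)] at h3
      exact h3
    have h4 : q2 (cv F G P x a) * q2 (P x) ≤ q2 (cv F G P x a) * w x :=
      mul_le_mul_of_nonneg_left (hqw x) (hnn _)
    nlinarith
  have hgs0 : ∀ (z : E n → ℝ) (x : E n), 0 ≤ gs g z x := fun z x => by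
    rw [hgs]
    exact Finset.sum_nonneg fun a _ => sq_nonneg _
  -- continuity
  have hχd : Continuous (fderiv ℝ χ) := hχs.continuous_fderiv (by simp)
  have hwdc : Continuous (fderiv ℝ w) := hws.continuous_fderiv (by simp)
  have hFc : ∀ a, Continuous (F a) := fun a => (hF.smF a).continuous
  have hgsc : Continuous (fun x => gs g w x) := by
    simp only [hgs]
    exact continuous_finsetSum _ fun a _ => (hwdc.clm_apply (hFc a)).pow 2
  have hgχc : Continuous (fun x => gs g χ x) := by
    simp only [hgs]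
    exact continuous_finsetSum _ fun a _ => (hχd.clm_apply (hFc a)).pow 2
  have hcvc : ∀ a, Continuous (fun x => cv F G P x a) := fun a =>
    (((hDer n (m + 1) g Γ F G hF).1 P hP).1 a).continuous
  have hNFc : Continuous (fun x => NF F G P x) := by
    unfold NF
    exact continuous_finsetSum _ fun a _ => ipt_cont_SUP (hcvc a) (hcvc a)
  have hWzc : Continuous (fun x => Wz (Rc g Γ F x) (P x)) :=
    wz_cont_SUP hChr hg hΓ hF.smF hP.continuous
  have hχcc := hχs.continuous
  have hwc := hws.continuous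
  have hFcc := hFs.continuous
  have hφcc := hφs.continuous
  have i1 : Integrable (fun x => χ x ^ 2 * tau T (w x) ^ p * (gs g w x / w x) * vol g x) := by
    refine integ_SUP ?_ hχc fun x hx => ?_
    · exact (((hχcc.pow 2).mul hFcc).mul (hgsc.div hwc fun x => (hwp x).ne')).mul hvs
    · rw [hχ0 x hx]; ring
  have i2 : Integrable (fun x => χ x ^ 2 * (p * tau T (w x) ^ (p - 1) * (T / (T + w x)) ^ 2) *
      gs g w x * vol g x) := by
    refine integ_SUP ?_ hχc fun x hx => ?_
    · exact (((hχcc.pow 2).mul hF'c).mul hgsc).mul hvs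
    · rw [hχ0 x hx]; ring
  have i3 : Integrable (fun x => |χ x| * tau T (w x) ^ p * (√(gs g χ x) * √(gs g w x)) *
      vol g x) := by
    refine integ_SUP ?_ hχc fun x hx => ?_
    · exact ((hχcc.abs.mul hFcc).mul (hgχc.sqrt.mul hgsc.sqrt)).mul hvs
    · rw [hχ0 x hx, abs_zero]; ring
  have i4 : Integrable (fun x => χ x ^ 2 * tau T (w x) ^ p * w x * vol g x) := by
    refine integ_SUP ?_ hχc fun x hx => ?_
    · exact (((hχcc.pow 2).mul hFcc).mul hwc).mul hvs
    · rw [hχ0 x hx]; ring
  have hsumc : Continuous (fun x => ∑ a, fderiv ℝ φ x (F a x) * ipt (cv F G P x a) (P x)) := by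
    have h1 : Continuous (fderiv ℝ φ) := hφs.continuous_fderiv (by simp)
    exact continuous_finsetSum _ fun a _ =>
      (h1.clm_apply (hFc a)).mul (ipt_cont_SUP (hcvc a) hP.continuous)
  have i5 : Integrable (fun x => (φ x * NF F G P x +
      (∑ a, fderiv ℝ φ x (F a x) * ipt (cv F G P x a) (P x)) +
      φ x * Wz (Rc g Γ F x) (P x)) * vol g x) := by
    refine integ_SUP ?_ hχc fun x hx => ?_
    · exact (((hφcc.mul hNFc).add hsumc).add (hφcc.mul hWzc)).mul hvs
    · have h1 : ∀ a, fderiv ℝ φ x (F a x) = 0 := fun a => by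
        rw [hφd, hχ0 x hx]; ring
      rw [hφ0 x hx]
      simp [h1]
  -- the tested Bochner formula
  have hB := hBop n m g Γ F G hg hΓ hF P hP hAl φ hφc
  have hB0 : ∫ x, (ipt (dF F G P x) (dF F G (fun y => φ y • P y) x) +
        ipt (dlF F G (fun _ => 0) P x) (dlF F G (fun _ => 0) (fun y => φ y • P y) x)) * vol g x =
      0 := by
    have h1 : ∀ x, (ipt (dF F G P x) (dF F G (fun y => φ y • P y) x) +
        ipt (dlF F G (fun _ => 0) P x) (dlF F G (fun _ => 0) (fun y => φ y • P y) x)) * vol g x =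
      0 := by
      intro x
      rw [hd0 x, hδ0 x, ipt_zero_SUP, ipt_zero_SUP]
      ring
    simp only [h1, integral_zero]
  rw [hB0] at hB
  -- the pointwise inequality
  have hpt : ∀ x, (1 / 4) * (χ x ^ 2 * tau T (w x) ^ p * (gs g w x / w x) * vol g x) +
      (1 / 2) * (χ x ^ 2 * (p * tau T (w x) ^ (p - 1) * (T / (T + w x)) ^ 2) *
        gs g w x * vol g x) -
      (|χ x| * tau T (w x) ^ p * (√(gs g χ x) * √(gs g w x)) * vol g x) -
      lam * (χ x ^ 2 * tau T (w x) ^ p * w x * vol g x) ≤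
      (φ x * NF F G P x + (∑ a, fderiv ℝ φ x (F a x) * ipt (cv F G P x a) (P x)) +
        φ x * Wz (Rc g Γ F x) (P x)) * vol g x := by
    intro x
    have hφp : 0 ≤ φ x := mul_nonneg (sq_nonneg _) (hFp x)
    -- first term
    have e1 : (1 / 4) * (φ x * (gs g w x / w x)) ≤ φ x * NF F G P x := by
      have h1 : gs g w x / w x ≤ 4 * NF F G P x := by
        rw [div_le_iff₀ (hwp x)]
        have := hgw x
        linarith
      have h2 := mul_le_mul_of_nonneg_left h1 hφp
      linarith
    -- second term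
    have e2 : ∑ a, fderiv ℝ φ x (F a x) * ipt (cv F G P x a) (P x) =
        χ x * Fw x * (∑ a, fderiv ℝ χ x (F a x) * fderiv ℝ w x (F a x)) +
          (1 / 2) * (χ x ^ 2 * F' x * gs g w x) := by
      rw [hgs, Finset.mul_sum, Finset.mul_sum, Finset.mul_sum, ← Finset.sum_add_distrib]
      refine Finset.sum_congr rfl fun a _ => ?_
      rw [hφd, hwd]
      ring
    have e3 : |∑ a, fderiv ℝ χ x (F a x) * fderiv ℝ w x (F a x)| ≤
        √(gs g χ x) * √(gs g w x) := by
      rw [hgs, hgs, ← Real.sqrt_mul (Finset.sum_nonneg fun a _ => sq_nonneg _)]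
      exact Real.abs_le_sqrt (Finset.sum_mul_sq_le_sq_mul_sq _ _ _)
    have e4 : -(|χ x| * Fw x * (√(gs g χ x) * √(gs g w x))) ≤
        χ x * Fw x * (∑ a, fderiv ℝ χ x (F a x) * fderiv ℝ w x (F a x)) := by
      have h1 : |χ x * Fw x * (∑ a, fderiv ℝ χ x (F a x) * fderiv ℝ w x (F a x))| ≤
          |χ x| * Fw x * (√(gs g χ x) * √(gs g w x)) := by
        rw [abs_mul, abs_mul, abs_of_nonneg (hFp x)]
        exact mul_le_mul_of_nonneg_left e3 (mul_nonneg (abs_nonneg _) (hFp x))
      exact (abs_le.1 h1).1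
    -- third term
    have e5 : -(lam * (φ x * w x)) ≤ φ x * Wz (Rc g Γ F x) (P x) := by
      by_cases hx : x ∈ tsupport χ
      · have h1 := hW x (hS hx) (P x) (hAl x)
        have h2 : -(lam * w x) ≤ Wz (Rc g Γ F x) (P x) := by
          have := mul_le_mul_of_nonneg_left (hqw x) hlam
          linarith
        have h3 := mul_le_mul_of_nonneg_left h2 hφp
        linarith
      · rw [hφ0 x hx]
        simp
    have h6 : (1 / 4) * (φ x * (gs g w x / w x)) + (1 / 2) * (χ x ^ 2 * F' x * gs g w x) -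
        |χ x| * Fw x * (√(gs g χ x) * √(gs g w x)) - lam * (φ x * w x) ≤
        φ x * NF F G P x + (∑ a, fderiv ℝ φ x (F a x) * ipt (cv F G P x a) (P x)) +
          φ x * Wz (Rc g Γ F x) (P x) := by
      rw [e2]
      linarith
    have h7 := mul_le_mul_of_nonneg_right h6 (hvp x).le
    refine le_trans (le_of_eq ?_) h7
    simp only [hφ, hFw, hF']
    ring
  have hint := integral_mono ((((i1.const_mul (1 / 4)).add (i2.const_mul (1 / 2))).sub i3).sub
    (i4.const_mul lam)) i5 hpt
  rw [hB] at hint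
  have hL : ∫ x, ((1 / 4) * (χ x ^ 2 * tau T (w x) ^ p * (gs g w x / w x) * vol g x) +
      (1 / 2) * (χ x ^ 2 * (p * tau T (w x) ^ (p - 1) * (T / (T + w x)) ^ 2) *
        gs g w x * vol g x) -
      (|χ x| * tau T (w x) ^ p * (√(gs g χ x) * √(gs g w x)) * vol g x) -
      lam * (χ x ^ 2 * tau T (w x) ^ p * w x * vol g x)) =
      (1 / 4) * (∫ x, χ x ^ 2 * tau T (w x) ^ p * (gs g w x / w x) * vol g x) +
      (1 / 2) * (∫ x, χ x ^ 2 * (p * tau T (w x) ^ (p - 1) * (T / (T + w x)) ^ 2) *
        gs g w x * vol g x) -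
      (∫ x, |χ x| * tau T (w x) ^ p * (√(gs g χ x) * √(gs g w x)) * vol g x) -
      lam * (∫ x, χ x ^ 2 * tau T (w x) ^ p * w x * vol g x) := by
    rw [integral_sub, integral_sub, integral_add, integral_const_mul, integral_const_mul,
      integral_const_mul]
    · exact i1.const_mul _
    · exact i2.const_mul _
    · exact (i1.const_mul _).add (i2.const_mul _)
    · exact i3
    · exact ((i1.const_mul _).add (i2.const_mul _)).sub i3
    · exact i4.const_mul _
  have hint' : ∫ x, ((1 / 4) * (χ x ^ 2 * tau T (w x) ^ p * (gs g w x / w x) * vol g x) +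
      (1 / 2) * (χ x ^ 2 * (p * tau T (w x) ^ (p - 1) * (T / (T + w x)) ^ 2) *
        gs g w x * vol g x) -
      (|χ x| * tau T (w x) ^ p * (√(gs g χ x) * √(gs g w x)) * vol g x) -
      lam * (χ x ^ 2 * tau T (w x) ^ p * w x * vol g x)) ≤ 0 := hint
  rw [hL] at hint'
  unfold SubI
  linarith

end Pool.Agent.Helper10.QD
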