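import Pool.Agent.Helper20.QD.St1

open Filter Topology Matrix Set Metric
open scoped ComplexConjugate

namespace Pool.Agent.Helper10.QD

open Pool.Agent.Helper35.PM Pool.Agent.Helper20.QD

/-- A continuous function on a connected set with exponential one is constant. -/
theorem tci_const {X : Type*} [TopologicalSpace X] {S : Set X} (hS : IsPreconnected S) (f : X → ℂ)
    (hf : ContinuousOn f S) (h : ∀ x ∈ S, Complex.exp (f x) = 1) :
    ∀ x ∈ S, ∀ y ∈ S, f x = f y := by
  classical
  have h1 : ∀ x, ∃ k : ℤ, x ∈ S → f x = k * (2 * Real.pi * Complex.I) := by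
    intro x
    by_cases hx : x ∈ S
    · obtain ⟨k, hk⟩ := Complex.exp_eq_one_iff.1 (h x hx)
      exact ⟨k, fun _ => hk⟩
    · exact ⟨0, fun h => absurd h hx⟩
  choose k hk using h1
  have h2 : ContinuousOn (fun x => ((k x : ℤ) : ℝ)) S := by
    have h3 : ContinuousOn (fun x => (f x / (2 * Real.pi * Complex.I)).re) S :=
      Complex.continuous_re.comp_continuousOn (hf.div_const _)
    refine h3.congr ?_
    intro x hx
    change ((k x : ℤ) : ℝ) = (f x / (2 * Real.pi * Complex.I)).re
    rw [hk x hx, mul_div_assoc, div_self Complex.two_pi_I_ne_zero, mul_one, Complex.intCast_re]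
  have h3 : ContinuousOn k S :=
    (Int.isClosedEmbedding_coe_real.isInducing.continuousOn_iff).2 h2
  intro x hx y hy
  rw [hk x hx, hk y hy, hS.constant h3 hx hy]

theorem tci_one (p : ℂ) (R : ℝ) (n : ℤ) (hR : 0 < R)
    (h : LogOn (sphere p R) (fun z => (z - p) ^ n)) : n = 0 := by
  obtain ⟨g, hg, hz⟩ := h
  let c : ℝ → ℂ := fun t => p + R * Complex.exp (t * Complex.I)
  have hc : Continuous c := by
    dsimp only [c]
    fun_prop
  have hcS : ∀ t, c t ∈ sphere p R := by
    intro t
    rw [mem_sphere_iff_norm]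
    dsimp only [c]
    rw [add_sub_cancel_left, norm_mul, Complex.norm_exp_ofReal_mul_I, mul_one, Complex.norm_real,
      Real.norm_eq_abs, abs_of_pos hR]
  let f : ℝ → ℂ := fun t => g (c t) - n * (t * Complex.I) - n * Real.log R
  have hf : ContinuousOn f univ := by
    have h1 : Continuous fun t => g (c t) := hg.comp_continuous hc hcS
    have h2 : Continuous fun t : ℝ => (n : ℂ) * (t * Complex.I) := by fun_prop
    exact ((h1.sub h2).sub continuous_const).continuousOn
  have hf1 : ∀ t ∈ (univ : Set ℝ), Complex.exp (f t) = 1 := by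
    intro t _
    have h1 := hz (c t) (hcS t)
    have h2 : c t - p = Complex.exp (Real.log R + t * Complex.I) := by
      dsimp only [c]
      rw [add_sub_cancel_left, Complex.exp_add, ← Complex.ofReal_exp, Real.exp_log hR]
    change (c t - p) ^ n = _ at h1
    rw [h2, ← Complex.exp_int_mul] at h1
    change Complex.exp (g (c t) - n * (t * Complex.I) - n * Real.log R) = 1
    rw [Complex.exp_sub, Complex.exp_sub, ← h1, ← Complex.exp_sub, ← Complex.exp_sub,
      Complex.exp_eq_one_iff]
    refine ⟨0, ?_⟩
    push_cast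
    ring
  have h2 := tci_const isPreconnected_univ f hf hf1 0 trivial (2 * Real.pi) trivial
  have h3 : c 0 = c (2 * Real.pi) := by
    dsimp only [c]
    push_cast
    rw [Complex.exp_two_pi_mul_I, zero_mul, Complex.exp_zero]
  change g (c 0) - n * ((0 : ℝ) * Complex.I) - n * Real.log R =
    g (c (2 * Real.pi)) - n * ((2 * Real.pi : ℝ) * Complex.I) - n * Real.log R at h2
  rw [← h3] at h2
  have h4 : (n : ℂ) * (2 * Real.pi * Complex.I) = 0 := by
    push_cast at h2
    linear_combination h2
  rcases mul_eq_zero.1 h4 with h5 | h5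
  · exact_mod_cast h5
  · exact absurd h5 Complex.two_pi_I_ne_zero

theorem hTCI (hTCV : StTCV) : StTCI := by
  refine ⟨tci_one, ?_⟩
  intro u hu hu0
  have he : ∀ t : ℝ, Complex.exp (t * Complex.I) ∈ SS := by
    intro t
    rw [mem_sphere_zero_iff_norm, Complex.norm_exp_ofReal_mul_I]
  obtain ⟨G, hG, hG1⟩ := hTCV univ (fun z => u (Complex.exp (z.re * Complex.I))) convex_univ (by
      apply Continuous.continuousOn
      exact hu.comp_continuous (by fun_prop) (fun z => he z.re))
    (fun z _ => hu0 _ (he z.re))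
  have hGc : Continuous fun t : ℝ => G (t : ℂ) :=
    (continuousOn_univ.1 hG).comp Complex.continuous_ofReal
  have hG2 : ∀ t : ℝ, u (Complex.exp (t * Complex.I)) = Complex.exp (G (t : ℂ)) := by
    intro t
    have := hG1 (t : ℂ) trivial
    simpa using this
  -- the increment is constant
  have hinc := tci_const (X := ℝ) isPreconnected_univ
    (fun t => G ((t + 2 * Real.pi : ℝ) : ℂ) - G (t : ℂ))
    (by
      apply Continuous.continuousOn
      exact (hGc.comp (continuous_id.add continuous_const)).sub hGc)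
    (by
      intro t _
      rw [Complex.exp_sub, ← hG2, ← hG2]
      have h1 : Complex.exp (((t + 2 * Real.pi : ℝ) : ℂ) * Complex.I) =
          Complex.exp (t * Complex.I) := by
        push_cast
        rw [add_mul, Complex.exp_add, Complex.exp_two_pi_mul_I, mul_one]
      rw [h1, div_self (hu0 _ (he t))])
  have hm : ∃ m : ℤ, ∀ t : ℝ, G ((t + 2 * Real.pi : ℝ) : ℂ) =
      G (t : ℂ) + m * (2 * Real.pi * Complex.I) := by
    have h1 : Complex.exp (G ((0 + 2 * Real.pi : ℝ) : ℂ) - G ((0 : ℝ) : ℂ)) = 1 := by
      rw [Complex.exp_sub, ← hG2, ← hG2]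
      have h1 : Complex.exp (((0 + 2 * Real.pi : ℝ) : ℂ) * Complex.I) =
          Complex.exp ((0 : ℝ) * Complex.I) := by
        push_cast
        rw [zero_add, Complex.exp_two_pi_mul_I, zero_mul, Complex.exp_zero]
      rw [h1, div_self (hu0 _ (he 0))]
    obtain ⟨m, hm⟩ := Complex.exp_eq_one_iff.1 h1
    refine ⟨m, fun t => ?_⟩
    have h2 := hinc t trivial 0 trivial
    rw [hm] at h2
    linear_combination h2
  obtain ⟨m, hm⟩ := hm
  let H : ℝ → ℂ := fun t => G (t : ℂ) - m * (t * Complex.I)
  have hHc : Continuous H := by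
    have h2 : Continuous fun t : ℝ => (m : ℂ) * (t * Complex.I) := by fun_prop
    exact hGc.sub h2
  have hHp : Function.Periodic H (2 * Real.pi) := by
    intro t
    change G ((t + 2 * Real.pi : ℝ) : ℂ) - m * ((t + 2 * Real.pi : ℝ) * Complex.I) =
      G (t : ℂ) - m * (t * Complex.I)
    rw [hm]
    push_cast
    ring
  let Lf : Real.Angle → ℂ := hHp.lift
  have hLf : ∀ t : ℝ, Lf (t : Real.Angle) = H t := fun t => hHp.lift_coe t
  have hLc : Continuous Lf := by
    have h1 : IsQuotientMap (fun t : ℝ => (t : Real.Angle)) := by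
      exact QuotientAddGroup.isQuotientMap_mk _
    rw [h1.continuous_iff]
    exact hHc
  refine ⟨-m, fun z => Lf ((Complex.arg z : ℝ) : Real.Angle), ?_, ?_⟩
  · intro z hz
    have hz0 : z ≠ 0 := by
      rintro rfl
      rw [mem_sphere_zero_iff_norm, norm_zero] at hz
      exact zero_ne_one hz
    exact (hLc.continuousAt.comp (Complex.continuousAt_arg_coe_angle hz0)).continuousWithinAt
  · intro z hz
    rw [mem_sphere_zero_iff_norm] at hz
    have h1 : Complex.exp (Complex.arg z * Complex.I) = z := by
      have := Complex.norm_mul_exp_arg_mul_I z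
      rw [hz] at this
      simpa using this
    change u z * z ^ (-m) = Complex.exp (Lf ((Complex.arg z : ℝ) : Real.Angle))
    rw [hLf]
    change u z * z ^ (-m) = Complex.exp (G (Complex.arg z : ℂ) - m * (Complex.arg z * Complex.I))
    rw [Complex.exp_sub, ← hG2, h1, Complex.exp_int_mul, h1, _root_.zpow_neg, div_eq_mul_inv]

end Pool.Agent.Helper10.QD
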